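import Mathlib

/-!
# Chordal graphs: a simplicial vertex (Dirac) and proper conflict-free colourings (helper18)
-/

set_option autoImplicit false

namespace Pool.Agent.H18.Chordal

open Finset SimpleGraph

variable {V : Type} [Fintype V] [DecidableEq V] (G : SimpleGraph V)

/-- The walks inside the set `T`. -/
def In (T : Finset V) {x y : V} (p : G.Walk x y) : Prop := ∀ z ∈ p.support, z ∈ T

/-- Chordality: every cycle with at least four edges has a chord. -/
def Ch : Prop :=
  ∀ (v : V) (c : G.Walk v v), c.IsCycle → 4 ≤ c.length →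
    ∃ x ∈ c.support, ∃ y ∈ c.support, G.Adj x y ∧ s(x, y) ∉ c.edges

variable {G}

theorem adj_len_one {x y : V} (p : G.Walk x y) (h : p.length = 1) : s(x, y) ∈ p.edges := by
  cases p with
  | nil => simp at h
  | cons a q =>
    cases q with
    | nil => simp
    | cons b r => simp at h

/-- In a shortest path inside `T` two adjacent vertices of the path are consecutive. -/
theorem shortest_chord {T : Finset V} {s t : V} (q : G.Walk s t) (hq : In G T q)
    (hmin : ∀ q' : G.Walk s t, In G T q' → q.length ≤ q'.length) {x y : V}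
    (hx : x ∈ q.support) (hy : y ∈ q.support) (hxy : G.Adj x y) : s(x, y) ∈ q.edges := by
  have hne : x ≠ y := hxy.ne
  have hspec := q.take_spec hx
  have hmem : y ∈ (q.takeUntil x hx).support ∨ y ∈ (q.dropUntil x hx).support := by
    rw [← Walk.mem_support_append_iff, hspec]
    exact hy
  rcases hmem with h | h
  · -- `y` before `x`
    set t1 := q.takeUntil x hx with ht1
    have h2 := t1.take_spec h
    have hlen : q.length = (t1.takeUntil y h).length + (t1.dropUntil y h).length
        + (q.dropUntil x hx).length := by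
      conv_lhs => rw [← hspec, Walk.length_append, ← h2, Walk.length_append]
    let q' : G.Walk s t := (t1.takeUntil y h).append (Walk.cons hxy.symm (q.dropUntil x hx))
    have hin : In G T q' := by
      intro z hz
      rw [Walk.mem_support_append_iff, Walk.support_cons, List.mem_cons] at hz
      rcases hz with hz | hz | hz
      · exact hq z (q.support_takeUntil_subset hx (t1.support_takeUntil_subset h hz))
      · exact hz ▸ hq y hy
      · exact hq z (q.support_dropUntil_subset hx hz)
    have h3 := hmin q' hin
    have h4 : q'.length = (t1.takeUntil y h).length + ((q.dropUntil x hx).length + 1) := by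
      simp [q', Walk.length_append]
    have h5 : (t1.dropUntil y h).length ≠ 0 := by
      intro h0
      exact hne (Walk.eq_of_length_eq_zero h0).symm
    have h6 : (t1.dropUntil y h).length = 1 := by omega
    have h7 := adj_len_one _ h6
    have h8 : s(y, x) ∈ q.edges :=
      q.edges_takeUntil_subset hx (t1.edges_dropUntil_subset h h7)
    rw [Sym2.eq_swap]
    exact h8
  · set t1 := q.dropUntil x hx with ht1
    have h2 := t1.take_spec h
    have hlen : q.length = (q.takeUntil x hx).length + ((t1.takeUntil y h).length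
        + (t1.dropUntil y h).length) := by
      conv_lhs => rw [← hspec, Walk.length_append, ← h2, Walk.length_append]
    let q' : G.Walk s t := (q.takeUntil x hx).append (Walk.cons hxy (t1.dropUntil y h))
    have hin : In G T q' := by
      intro z hz
      rw [Walk.mem_support_append_iff, Walk.support_cons, List.mem_cons] at hz
      rcases hz with hz | hz | hz
      · exact hq z (q.support_takeUntil_subset hx hz)
      · exact hz ▸ hq x hx
      · exact hq z (q.support_dropUntil_subset hx (t1.support_dropUntil_subset h hz))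
    have h3 := hmin q' hin
    have h4 : q'.length = (q.takeUntil x hx).length + ((t1.dropUntil y h).length + 1) := by
      simp [q', Walk.length_append]
    have h5 : (t1.takeUntil y h).length ≠ 0 := by
      intro h0
      exact hne (Walk.eq_of_length_eq_zero h0)
    have h6 : (t1.takeUntil y h).length = 1 := by omega
    have h7 := adj_len_one _ h6
    exact q.edges_dropUntil_subset hx (t1.edges_takeUntil_subset h h7)

/-- In a chordal graph: two neighbours `s, t` of `r`, joined inside `H ∪ {s, t}`, where `r` has no
neighbour in `H` and is not in `H`, are equal or adjacent. -/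
theorem sep_adj (hG : Ch G) {H : Finset V} {r s t : V} (hr : r ∉ H)
    (hrH : ∀ h ∈ H, ¬ G.Adj r h) (hrs : G.Adj r s) (hrt : G.Adj r t) (hst : s ≠ t)
    (hw : ∃ p : G.Walk s t, In G (insert s (insert t H)) p) : G.Adj s t := by
  classical
  by_contra hna
  set T := insert s (insert t H) with hT
  -- a shortest walk
  obtain ⟨p0, hp0⟩ := hw
  have hex : ∃ n, ∃ p : G.Walk s t, In G T p ∧ p.length = n := ⟨_, p0, hp0, rfl⟩
  obtain ⟨p, hp, hpn⟩ := Nat.find_spec hex
  have hmin0 : ∀ q' : G.Walk s t, In G T q' → p.length ≤ q'.length := by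
    intro q' hq'
    rw [hpn]
    exact Nat.find_min' hex ⟨q', hq', rfl⟩
  set q := p.bypass with hqdef
  have hq : In G T q := fun z hz => hp z (p.support_bypass_subset hz)
  have hmin : ∀ q' : G.Walk s t, In G T q' → q.length ≤ q'.length := fun q' hq' =>
    le_trans p.length_bypass_le (hmin0 q' hq')
  have hpath : q.IsPath := p.bypass_isPath
  have hrT : r ∉ T := by
    rw [hT]
    simp only [Finset.mem_insert, not_or]
    exact ⟨hrs.ne, hrt.ne, hr⟩
  have hrq : r ∉ q.support := fun h => hrT (hq r h)
  have hlen : 2 ≤ q.length := by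
    rcases Nat.lt_or_ge q.length 2 with h | h
    · exfalso
      have h1 : q.length = 0 ∨ q.length = 1 := by omega
      rcases h1 with h1 | h1
      · exact hst (Walk.eq_of_length_eq_zero h1)
      · exact hna (q.adj_of_mem_edges (adj_len_one q h1))
    · exact h
  have hcp : (q.concat hrt.symm).IsPath := by
    rw [Walk.concat_eq_append]
    rw [← Walk.concat_eq_append]
    exact hpath.concat hrq hrt.symm
  have hce : s(r, s) ∉ (q.concat hrt.symm).edges := by
    rw [Walk.edges_concat]
    simp only [List.concat_eq_append, List.mem_append, List.mem_singleton, not_or]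
    refine ⟨fun h => hrq (q.fst_mem_support_of_mem_edges h), ?_⟩
    intro h
    rcases Sym2.eq_iff.1 h with h | h
    · exact hrt.ne h.1
    · exact hst h.2
  let C : G.Walk r r := Walk.cons hrs (q.concat hrt.symm)
  have hC : C.IsCycle := (Walk.cons_isCycle_iff _ _).2 ⟨hcp, hce⟩
  have hCl : 4 ≤ C.length := by
    simp only [C, Walk.length_cons, Walk.length_concat]
    omega
  obtain ⟨x, hx, y, hy, hxy, hno⟩ := hG r C hC hCl
  have hCs : ∀ z ∈ C.support, z = r ∨ z ∈ q.support := by
    intro z hz
    simp only [C, Walk.support_cons, Walk.support_concat, List.mem_cons, List.concat_eq_append,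
      List.mem_append, List.mem_singleton, List.not_mem_nil, or_false] at hz
    tauto
  have hCe : ∀ e ∈ q.edges, e ∈ C.edges := by
    intro e he
    simp only [C, Walk.edges_cons, Walk.edges_concat, List.mem_cons, List.concat_eq_append,
      List.mem_append]
    tauto
  have hrs' : s(r, s) ∈ C.edges := by simp [C]
  have hrt' : s(t, r) ∈ C.edges := by
    simp [C, Walk.edges_concat]
  have key : ∀ z ∈ q.support, G.Adj r z → s(r, z) ∈ C.edges := by
    intro z hz ha
    have h1 := hq z hz
    rw [hT] at h1
    simp only [Finset.mem_insert] at h1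
    rcases h1 with h1 | h1 | h1
    · rw [h1]; exact hrs'
    · rw [h1, Sym2.eq_swap]; exact hrt'
    · exact absurd ha (hrH z h1)
  rcases hCs x hx with h1 | h1
  · rcases hCs y hy with h2 | h2
    · exact hxy.ne (h1.trans h2.symm)
    · rw [h1] at hxy hno
      exact hno (key y h2 hxy)
  · rcases hCs y hy with h2 | h2
    · rw [h2] at hxy hno
      rw [Sym2.eq_swap] at hno
      exact hno (key x h1 hxy.symm)
    · exact hno (hCe _ (shortest_chord q hq hmin h1 h2 hxy))

/-- Dirac's lemma, inside a set of vertices. -/
theorem simplicial (hG : Ch G) : ∀ n : ℕ, ∀ W : Finset V, W.card = n → W.Nonempty →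
    ∃ r ∈ W, ∀ x ∈ W, ∀ y ∈ W, G.Adj r x → G.Adj r y → x ≠ y → G.Adj x y := by
  classical
  intro n
  induction n using Nat.strong_induction_on with
  | _ n ih =>
  intro W hWn hW
  by_cases hcomp : ∀ x ∈ W, ∀ y ∈ W, x ≠ y → G.Adj x y
  · obtain ⟨r, hr⟩ := hW
    exact ⟨r, hr, fun x hx y hy _ _ hxy => hcomp x hx y hy hxy⟩
  push Not at hcomp
  obtain ⟨a, ha, b, hb, hab, hnab⟩ := hcomp
  -- connected sets
  let Conn : Finset V → Prop := fun H => ∀ x ∈ H, ∀ y ∈ H, ∃ p : G.Walk x y, In G H p
  let F : Finset (Finset V) := W.powerset.filter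
    (fun H => H.Nonempty ∧ Conn H ∧ ∃ z ∈ W, z ∉ H ∧ ∀ h ∈ H, ¬ G.Adj z h)
  have hF : F.Nonempty := by
    refine ⟨{a}, ?_⟩
    simp only [F, Finset.mem_filter, Finset.mem_powerset, Finset.singleton_subset_iff]
    refine ⟨ha, ⟨a, by simp⟩, ?_, b, hb, by simpa using hab.symm, ?_⟩
    · intro x hx y hy
      rw [Finset.mem_singleton] at hx hy
      subst hx; subst hy
      exact ⟨Walk.nil, by intro z hz; simpa using hz⟩
    · intro h hh
      rw [Finset.mem_singleton] at hh
      rw [hh]
      exact fun h => hnab h.symm
  obtain ⟨H, hHF, hHmax⟩ := F.exists_max_image (fun H => H.card) hF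
  simp only [F, Finset.mem_filter, Finset.mem_powerset] at hHF
  obtain ⟨hHW, hHne, hHc, z0, hz0W, hz0H, hz0⟩ := hHF
  let R : Finset V := W.filter (fun z => z ∉ H ∧ ∀ h ∈ H, ¬ G.Adj z h)
  have hRne : R.Nonempty := ⟨z0, by simp only [R, Finset.mem_filter]; exact ⟨hz0W, hz0H, hz0⟩⟩
  -- every vertex of `W` outside `H` with a neighbour in `H` is adjacent to all of `R`
  have hSR : ∀ s ∈ W, s ∉ H → (∃ h ∈ H, G.Adj s h) → ∀ z ∈ R, G.Adj s z := by
    intro s hs hsH ⟨h0, hh0, hsh0⟩ z hz
    simp only [R, Finset.mem_filter] at hz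
    by_contra hns
    have hcn : Conn (insert s H) := by
      have hin : ∀ {x y : V} (p : G.Walk x y), In G H p → In G (insert s H) p :=
        fun p hp w hw => Finset.mem_insert_of_mem (hp w hw)
      have h1 : ∀ y ∈ H, ∃ p : G.Walk s y, In G (insert s H) p := by
        intro y hy
        obtain ⟨p, hp⟩ := hHc h0 hh0 y hy
        refine ⟨Walk.cons hsh0 p, ?_⟩
        intro w hw
        rw [Walk.support_cons, List.mem_cons] at hw
        rcases hw with hw | hw
        · rw [hw]; exact Finset.mem_insert_self _ _
        · exact Finset.mem_insert_of_mem (hp w hw)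
      intro x hx y hy
      rw [Finset.mem_insert] at hx hy
      rcases hx with hx | hx
      · subst hx
        rcases hy with hy | hy
        · subst hy
          exact ⟨Walk.nil, by intro w hw; simp at hw; rw [hw]; exact Finset.mem_insert_self _ _⟩
        · exact h1 y hy
      · rcases hy with hy | hy
        · subst hy
          obtain ⟨p, hp⟩ := h1 x hx
          refine ⟨p.reverse, ?_⟩
          intro w hw
          rw [Walk.support_reverse, List.mem_reverse] at hw
          exact hp w hw
        · obtain ⟨p, hp⟩ := hHc x hx y hy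
          exact ⟨p, hin p hp⟩
    have hmem : insert s H ∈ F := by
      simp only [F, Finset.mem_filter, Finset.mem_powerset]
      refine ⟨Finset.insert_subset hs hHW, ⟨s, Finset.mem_insert_self _ _⟩, hcn, z, hz.1, ?_, ?_⟩
      · rw [Finset.mem_insert, not_or]
        refine ⟨?_, hz.2.1⟩
        intro hzs
        rw [hzs] at hz
        exact hz.2.2 h0 hh0 hsh0
      · intro h hh
        rw [Finset.mem_insert] at hh
        rcases hh with hh | hh
        · rw [hh]; exact fun h => hns h.symm
        · exact hz.2.2 h hh
    have h2 := hHmax _ hmem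
    rw [Finset.card_insert_of_notMem hsH] at h2
    omega
  -- two such vertices are adjacent
  have hSS : ∀ s ∈ W, s ∉ H → (∃ h ∈ H, G.Adj s h) → ∀ t ∈ W, t ∉ H → (∃ h ∈ H, G.Adj t h) →
      s ≠ t → G.Adj s t := by
    intro s hs hsH hsh t ht htH hth hst
    obtain ⟨r, hr⟩ := hRne
    have hr' := hr
    simp only [R, Finset.mem_filter] at hr'
    refine sep_adj hG hr'.2.1 hr'.2.2 (hSR s hs hsH hsh r hr).symm (hSR t ht htH hth r hr).symm
      hst ?_
    obtain ⟨h1, hh1, hsh1⟩ := hsh
    obtain ⟨h2, hh2, hth2⟩ := hth
    obtain ⟨p, hp⟩ := hHc h1 hh1 h2 hh2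
    refine ⟨Walk.cons hsh1 (p.concat hth2.symm), ?_⟩
    intro w hw
    simp only [Walk.support_cons, Walk.support_concat, List.mem_cons, List.concat_eq_append,
      List.mem_append, List.mem_singleton, List.not_mem_nil, or_false] at hw
    simp only [Finset.mem_insert]
    rcases hw with hw | hw | hw
    · exact Or.inl hw
    · exact Or.inr (Or.inr (hp w hw))
    · exact Or.inr (Or.inl hw)
  -- induction in `R`
  have hRlt : R.card < n := by
    rw [← hWn]
    obtain ⟨h, hh⟩ := hHne
    refine Finset.card_lt_card ⟨Finset.filter_subset _ _, ?_⟩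
    intro hsub
    have := hsub (hHW hh)
    simp only [R, Finset.mem_filter] at this
    exact this.2.1 hh
  obtain ⟨r, hr, hrs⟩ := ih R.card hRlt R rfl hRne
  have hr' := hr
  simp only [R, Finset.mem_filter] at hr'
  refine ⟨r, hr'.1, ?_⟩
  intro x hx y hy hrx hry hxy
  have hxH : x ∉ H := fun h => hr'.2.2 x h hrx
  have hyH : y ∉ H := fun h => hr'.2.2 y h hry
  by_cases hxS : ∃ h ∈ H, G.Adj x h
  · by_cases hyS : ∃ h ∈ H, G.Adj y h
    · exact hSS x hx hxH hxS y hy hyH hyS hxy
    · push Not at hyS
      exact hSR x hx hxH hxS y (by simp only [R, Finset.mem_filter]; exact ⟨hy, hyH, hyS⟩)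
  · push Not at hxS
    have hxR : x ∈ R := by simp only [R, Finset.mem_filter]; exact ⟨hx, hxH, hxS⟩
    by_cases hyS : ∃ h ∈ H, G.Adj y h
    · exact (hSR y hy hyH hyS x hxR).symm
    · push Not at hyS
      have hyR : y ∈ R := by simp only [R, Finset.mem_filter]; exact ⟨hy, hyH, hyS⟩
      exact hrs x hxR y hyR hrx hry hxy

end Pool.Agent.H18.Chordal
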