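import Pool.Agent.H18.Chordal18

/-!
# Proper conflict-free list colourings of chordal graphs along a perfect elimination order

The witness of a vertex is its earliest neighbour (helper39's choice). Lists only have to be
larger than the degrees of the neighbours.
-/

set_option autoImplicit false

namespace Pool.Agent.H18.Chordal

open Finset SimpleGraph

variable {V : Type} [Fintype V] [DecidableEq V] {G : SimpleGraph V} [DecidableRel G.Adj]

/-- A chordal graph has a perfect elimination order: earlier neighbours form a clique. -/
theorem exists_order (hG : Ch G) : ∀ n : ℕ, ∀ W : Finset V, W.card = n →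
    ∃ pos : V → ℕ, (∀ x ∈ W, pos x < n) ∧ (∀ x ∈ W, ∀ y ∈ W, pos x = pos y → x = y) ∧
      ∀ x ∈ W, ∀ y ∈ W, ∀ z ∈ W, G.Adj x y → G.Adj x z → pos y < pos x → pos z < pos x →
        y ≠ z → G.Adj y z := by
  intro n
  induction n with
  | zero =>
    intro W hW
    rw [Finset.card_eq_zero] at hW
    subst hW
    exact ⟨fun _ => 0, by simp, by simp, by simp⟩
  | succ n ih =>
    intro W hW
    have hne : W.Nonempty := by
      rw [← Finset.card_pos]
      omega
    obtain ⟨r, hr, hrs⟩ := simplicial hG W.card W rfl hne
    have hcard : (W.erase r).card = n := by
      rw [Finset.card_erase_of_mem hr]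
      omega
    obtain ⟨pos, h1, h2, h3⟩ := ih (W.erase r) hcard
    have hpr : Function.update pos r n r = n := Function.update_self _ _ _
    have hpu : ∀ u, u ≠ r → Function.update pos r n u = pos u := fun u hu =>
      Function.update_of_ne hu _ _
    refine ⟨Function.update pos r n, ?_, ?_, ?_⟩
    · intro x hx
      by_cases hxr : x = r
      · rw [hxr, hpr]
        omega
      · rw [hpu x hxr]
        have := h1 x (Finset.mem_erase.2 ⟨hxr, hx⟩)
        omega
    · intro x hx y hy hxy
      by_cases hxr : x = r
      · by_cases hyr : y = r
        · rw [hxr, hyr]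
        · rw [hxr, hpr, hpu y hyr] at hxy
          have := h1 y (Finset.mem_erase.2 ⟨hyr, hy⟩)
          omega
      · by_cases hyr : y = r
        · rw [hyr, hpr, hpu x hxr] at hxy
          have := h1 x (Finset.mem_erase.2 ⟨hxr, hx⟩)
          omega
        · rw [hpu x hxr, hpu y hyr] at hxy
          exact h2 x (Finset.mem_erase.2 ⟨hxr, hx⟩) y (Finset.mem_erase.2 ⟨hyr, hy⟩) hxy
    · intro x hx y hy z hz hxy hxz hyx hzx hyz
      by_cases hxr : x = r
      · rw [hxr] at hxy hxz
        exact hrs y hy z hz hxy hxz hyz
      · have hx1 := h1 x (Finset.mem_erase.2 ⟨hxr, hx⟩)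
        rw [hpu x hxr] at hyx hzx
        have hyr : y ≠ r := by
          intro h
          rw [h, hpr] at hyx
          omega
        have hzr : z ≠ r := by
          intro h
          rw [h, hpr] at hzx
          omega
        rw [hpu y hyr] at hyx
        rw [hpu z hzr] at hzx
        exact h3 x (Finset.mem_erase.2 ⟨hxr, hx⟩) y (Finset.mem_erase.2 ⟨hyr, hy⟩) z
          (Finset.mem_erase.2 ⟨hzr, hz⟩) hxy hxz hyx hzx hyz

/-- Greedy list colouring along an order whose earlier neighbourhoods are cliques. -/
theorem peo_pcf {pos : V → ℕ} (hinj : Function.Injective pos)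
    (hpeo : ∀ x y z : V, G.Adj x y → G.Adj x z → pos y < pos x → pos z < pos x → y ≠ z →
      G.Adj y z)
    {α : Type} [DecidableEq α] (L : V → Finset α) (hL1 : ∀ v, (L v).Nonempty)
    (hL2 : ∀ v u, G.Adj v u → G.degree u < (L v).card) :
    ∃ c : V → α, (∀ v, c v ∈ L v) ∧ (∀ u v : V, G.Adj u v → c u ≠ c v) ∧
      ∀ v : V, 0 < G.degree v → ∃ k : α,
        (Finset.filter (fun w => c w = k) (G.neighborFinset v)).card = 1 := by
  classical
  -- the earliest neighbour
  have hm0 : ∀ w : V, ∃ m : V, (∃ z, G.Adj w z) → G.Adj w m ∧ ∀ z, G.Adj w z → pos m ≤ pos z := by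
    intro w
    by_cases h : ∃ z, G.Adj w z
    · obtain ⟨z, hz⟩ := h
      have hne : (G.neighborFinset w).Nonempty := ⟨z, (G.mem_neighborFinset w z).2 hz⟩
      obtain ⟨m, hm, hmin⟩ := (G.neighborFinset w).exists_min_image pos hne
      refine ⟨m, fun _ => ⟨(G.mem_neighborFinset w m).1 hm, fun z hz => hmin z ?_⟩⟩
      exact (G.mem_neighborFinset w z).2 hz
    · exact ⟨w, fun h' => absurd h' h⟩
  choose m hm using hm0
  -- greedy
  have main : ∀ n : ℕ, ∃ c : V → α, (∀ v, c v ∈ L v) ∧
      (∀ u v, pos u < n → pos v < n → G.Adj u v → c u ≠ c v) ∧
      ∀ v, pos (m v) < n → ∀ w, pos w < n → G.Adj v w → w ≠ m v → c w ≠ c (m v) := by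
    intro n
    induction n with
    | zero =>
      choose a ha using hL1
      exact ⟨a, ha, by intro u v h; omega, by intro v h; omega⟩
    | succ n ih =>
      obtain ⟨c, hc0, hc1, hc2⟩ := ih
      by_cases hx : ∃ x, pos x = n
      · obtain ⟨x, hx⟩ := hx
        let K : Finset V := (G.neighborFinset x).filter (fun w => pos w < n)
        let F : Finset V := K ∪ (K.image m).erase x
        have hKm : ∀ w, w ∈ K ↔ G.Adj x w ∧ pos w < n := by
          intro w
          simp only [K, Finset.mem_filter, G.mem_neighborFinset]
        have hF : (F.image c).card < (L x).card := by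
          rcases Finset.eq_empty_or_nonempty K with hK | hK
          · have h0 : F = ∅ := by simp [F, hK]
            rw [h0, Finset.image_empty, Finset.card_empty]
            exact Finset.card_pos.2 (hL1 x)
          · obtain ⟨b, hb, hbmin⟩ := K.exists_min_image pos hK
            have hb' := (hKm b).1 hb
            -- everything lies in the closed neighbourhood of `b`, and `x` is another neighbour
            have hsub : insert x (F.erase b) ⊆ G.neighborFinset b := by
              intro w hw
              rw [G.mem_neighborFinset]
              rw [Finset.mem_insert, Finset.mem_erase] at hw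
              rcases hw with hw | ⟨hwb, hw⟩
              · rw [hw]
                exact hb'.1.symm
              · simp only [F, Finset.mem_union, Finset.mem_erase, Finset.mem_image] at hw
                rcases hw with hw | ⟨hwx, y, hy, hyw⟩
                · have hw' := (hKm w).1 hw
                  exact (hpeo x w b hw'.1 hb'.1 (by omega) (by omega) hwb).symm
                · have hy' := (hKm y).1 hy
                  by_cases hyb : y = b
                  · rw [hyb] at hyw
                    rw [← hyw]
                    exact (hm b ⟨x, hb'.1.symm⟩).1
                  · have hyb' : G.Adj y b :=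
                      hpeo x y b hy'.1 hb'.1 (by omega) (by omega) hyb
                    have h1 := hm y ⟨b, hyb'⟩
                    have h2 := h1.2 b hyb'
                    have h3 := hbmin y hy
                    have h4 : pos b ≠ pos y := fun h => hyb (hinj h).symm
                    rw [hyw] at h1 h2
                    exact (hpeo y w b h1.1 hyb' (by omega) (by omega) hwb).symm
            have hxF : x ∉ F.erase b := by
              intro h
              rw [Finset.mem_erase] at h
              simp only [F, Finset.mem_union, Finset.mem_erase] at h
              rcases h.2 with h2 | h2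
              · have := (hKm x).1 h2
                exact this.1.ne rfl
              · exact h2.1 rfl
            have h1 := Finset.card_le_card hsub
            rw [Finset.card_insert_of_notMem hxF, G.card_neighborFinset_eq_degree] at h1
            have h2 : F.card ≤ (F.erase b).card + 1 := by
              have := Finset.pred_card_le_card_erase (s := F) (a := b)
              omega
            have h3 := hL2 x b hb'.1
            have h4 : (F.image c).card ≤ F.card := Finset.card_image_le
            omega
        obtain ⟨k, hkL, hk⟩ := Finset.exists_mem_notMem_of_card_lt_card hF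
        have hkF : ∀ w ∈ F, c w ≠ k := fun w hw h => hk (Finset.mem_image.2 ⟨w, hw, h⟩)
        have hcr : Function.update c x k x = k := Function.update_self _ _ _
        have hcu : ∀ u, u ≠ x → Function.update c x k u = c u := fun u hu =>
          Function.update_of_ne hu _ _
        have hlt : ∀ u, pos u < n + 1 → u ≠ x → pos u < n := by
          intro u hu hux
          have : pos u ≠ n := fun h => hux (hinj (h.trans hx.symm))
          omega
        refine ⟨Function.update c x k, ?_, ?_, ?_⟩
        · intro v
          by_cases hvx : v = x
          · rw [hvx, hcr]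
            exact hkL
          · rw [hcu v hvx]
            exact hc0 v
        · intro u v hu hv huv
          by_cases hux : u = x
          · rw [hux] at huv ⊢
            have hvx : v ≠ x := huv.ne.symm
            rw [hcr, hcu v hvx]
            refine (hkF v ?_).symm
            simp only [F, Finset.mem_union]
            exact Or.inl ((hKm v).2 ⟨huv, hlt v hv hvx⟩)
          · by_cases hvx : v = x
            · rw [hvx] at huv ⊢
              rw [hcr, hcu u hux]
              refine hkF u ?_
              simp only [F, Finset.mem_union]
              exact Or.inl ((hKm u).2 ⟨huv.symm, hlt u hu hux⟩)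
            · rw [hcu u hux, hcu v hvx]
              exact hc1 u v (hlt u hu hux) (hlt v hv hvx) huv
        · intro v hv w hw hvw hwm
          have hmv := hm v ⟨w, hvw⟩
          by_cases hmx : m v = x
          · -- the witness is `x`: every other coloured neighbour would be earlier
            exfalso
            have h1 := hmv.2 w hvw
            rw [hmx, hx] at h1
            have h2 : pos w ≠ n := by
              intro h
              exact hwm ((hinj (h.trans hx.symm)).trans hmx.symm)
            omega
          · rw [hcu (m v) hmx]
            by_cases hwx : w = x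
            · rw [hwx, hcr]
              rw [hwx] at hvw
              have hvK : v ∈ K ∨ n < pos v ∨ v = x := by
                rcases Nat.lt_trichotomy (pos v) n with h | h | h
                · exact Or.inl ((hKm v).2 ⟨hvw.symm, h⟩)
                · exact Or.inr (Or.inr (hinj (h.trans hx.symm)))
                · exact Or.inr (Or.inl h)
              rcases hvK with h | h | h
              · refine (hkF (m v) ?_).symm
                simp only [F, Finset.mem_union, Finset.mem_erase, Finset.mem_image]
                exact Or.inr ⟨hmx, v, h, rfl⟩
              · -- `v` comes later: its earlier neighbours `x` and `m v` are adjacent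
                have h5 : pos (m v) < n := hlt (m v) hv hmx
                have h6 : G.Adj x (m v) :=
                  hpeo v x (m v) hvw hmv.1 (by omega) (by omega) (fun h => hmx h.symm)
                refine (hkF (m v) ?_).symm
                simp only [F, Finset.mem_union]
                exact Or.inl ((hKm (m v)).2 ⟨h6, h5⟩)
              · exact absurd h hvw.ne
            · rw [hcu w hwx]
              exact hc2 v (hlt (m v) hv hmx) w (hlt w hw hwx) hvw hwm
      · refine ⟨c, hc0, ?_, ?_⟩
        · intro u v hu hv
          refine hc1 u v ?_ ?_
          · have : pos u ≠ n := fun h => hx ⟨u, h⟩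
            omega
          · have : pos v ≠ n := fun h => hx ⟨v, h⟩
            omega
        · intro v hv w hw
          refine hc2 v ?_ w ?_
          · have : pos (m v) ≠ n := fun h => hx ⟨m v, h⟩
            omega
          · have : pos w ≠ n := fun h => hx ⟨w, h⟩
            omega
  obtain ⟨N, hN⟩ : ∃ N : ℕ, ∀ v, pos v < N := by
    refine ⟨(Finset.univ.image pos).sup id + 1, fun v => ?_⟩
    have h := Finset.le_sup (f := id) (Finset.mem_image_of_mem pos (Finset.mem_univ v))
    simp only [id] at h
    omega
  obtain ⟨c, hc0, hc1, hc2⟩ := main N
  refine ⟨c, hc0, fun u v => hc1 u v (hN u) (hN v), ?_⟩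
  intro v hv
  rw [← G.card_neighborFinset_eq_degree, Finset.card_pos] at hv
  obtain ⟨z, hz⟩ := hv
  have hvz := (G.mem_neighborFinset v z).1 hz
  have hmv := hm v ⟨z, hvz⟩
  refine ⟨c (m v), Finset.card_eq_one.2 ⟨m v, ?_⟩⟩
  ext w
  rw [Finset.mem_filter, Finset.mem_singleton, G.mem_neighborFinset]
  constructor
  · rintro ⟨hw, hwc⟩
    by_contra hwm
    exact hc2 v (hN _) w (hN w) hw hwm hwc
  · intro hwm
    rw [hwm]
    exact ⟨hmv.1, rfl⟩

/-- The list theorem for chordal graphs. -/
theorem chordal_list (hG : Ch G) {α : Type} [DecidableEq α] (L : V → Finset α)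
    (hL1 : ∀ v, (L v).Nonempty) (hL2 : ∀ v u, G.Adj v u → G.degree u < (L v).card) :
    ∃ c : V → α, (∀ v, c v ∈ L v) ∧ (∀ u v : V, G.Adj u v → c u ≠ c v) ∧
      ∀ v : V, 0 < G.degree v → ∃ k : α,
        (Finset.filter (fun w => c w = k) (G.neighborFinset v)).card = 1 := by
  obtain ⟨pos, _, h2, h3⟩ := exists_order hG Finset.univ.card Finset.univ rfl
  exact peo_pcf (fun x y hxy => h2 x (Finset.mem_univ _) y (Finset.mem_univ _) hxy)
    (fun x y z => h3 x (Finset.mem_univ _) y (Finset.mem_univ _) z (Finset.mem_univ _)) L hL1 hL2

end Pool.Agent.H18.Chordal
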