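import Pool.Agent.H18.Chordal18

/-!
# Proper conflict-free colourings of chordal graphs from lists of size `Δ + 1` (helper18)
-/

set_option autoImplicit false

namespace Pool.Agent.H18.Chordal

open Finset SimpleGraph

variable {V : Type} [Fintype V] [DecidableEq V] (G : SimpleGraph V) [DecidableRel G.Adj]

/-- `u` lies in a clique that contains more than half of its neighbours. -/
def Safe (u : V) : Prop :=
  ∃ K : Finset V, u ∈ K ∧ (∀ x ∈ K, ∀ y ∈ K, x ≠ y → G.Adj x y) ∧ G.degree u < 2 * (K.card - 1)

variable {G}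

/-- A safe vertex is satisfied by every proper colouring. -/
theorem safe_unique {α : Type} [DecidableEq α] {c : V → α}
    (hc : ∀ u v : V, G.Adj u v → c u ≠ c v) {u : V} (hu : Safe G u) :
    ∃ k : α, (Finset.filter (fun w => c w = k) (G.neighborFinset u)).card = 1 := by
  obtain ⟨K, huK, hK, hd⟩ := hu
  have h1 : K.erase u ⊆ G.neighborFinset u := by
    intro w hw
    rw [Finset.mem_erase] at hw
    rw [G.mem_neighborFinset]
    exact hK u huK w hw.2 hw.1.symm
  have h2 : (K.erase u).card = K.card - 1 := Finset.card_erase_of_mem huK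
  have h3 : (G.neighborFinset u \ K.erase u).card + (K.erase u).card = G.degree u := by
    rw [Finset.card_sdiff_add_card_eq_card h1, G.card_neighborFinset_eq_degree]
  have hinj : Set.InjOn c (K.erase u : Finset V) := by
    intro x hx y hy hxy
    rw [Finset.mem_coe, Finset.mem_erase] at hx hy
    by_contra hne
    exact hc x y (hK x hx.2 y hy.2 hne) hxy
  have h4 : ((G.neighborFinset u \ K.erase u).image c).card < ((K.erase u).image c).card := by
    rw [Finset.card_image_of_injOn hinj]
    refine lt_of_le_of_lt Finset.card_image_le ?_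
    omega
  obtain ⟨k, hk, hk'⟩ := Finset.exists_mem_notMem_of_card_lt_card h4
  obtain ⟨x, hx, hxk⟩ := Finset.mem_image.1 hk
  refine ⟨k, Finset.card_eq_one.2 ⟨x, ?_⟩⟩
  ext w
  rw [Finset.mem_filter, Finset.mem_singleton]
  constructor
  · rintro ⟨hw, hwk⟩
    by_cases hwK : w ∈ K.erase u
    · exact hinj hwK hx (hwk.trans hxk.symm)
    · exact absurd (Finset.mem_image.2 ⟨w, Finset.mem_sdiff.2 ⟨hw, hwK⟩, hwk⟩) hk'
  · intro hwx
    rw [hwx]
    exact ⟨h1 hx, hxk⟩

/-- The greedy colouring. -/
theorem greedy (hG : Ch G) {α : Type} [DecidableEq α] (L : V → Finset α)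
    (hL0 : ∀ v, G.degree v < (L v).card) (hL : ∀ v u, G.Adj v u → G.degree u < (L v).card) :
    ∀ n : ℕ, ∀ W : Finset V, W.card = n →
    ∃ c : V → α, (∀ v, c v ∈ L v) ∧
      (∀ u ∈ W, ∀ v ∈ W, G.Adj u v → c u ≠ c v) ∧
      ∀ u ∈ W, ¬ Safe G u → (∃ v ∈ W, G.Adj u v) →
        ∃ p ∈ W, G.Adj u p ∧ ∀ w ∈ W, G.Adj u w → w ≠ p → c w ≠ c p := by
  classical
  intro n
  induction n with
  | zero =>
    intro W hW
    rw [Finset.card_eq_zero] at hW
    subst hW
    have hne : ∀ v, ∃ a, a ∈ L v := fun v => by
      have h1 : 0 < (L v).card := lt_of_le_of_lt (Nat.zero_le _) (hL0 v)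
      exact Finset.card_pos.1 h1
    choose a ha using hne
    exact ⟨a, ha, by simp, by simp⟩
  | succ n ih =>
    intro W hW
    have hne : W.Nonempty := by
      rw [← Finset.card_pos]
      omega
    obtain ⟨r, hr, hrs⟩ := simplicial hG W.card W rfl hne
    have hcard : (W.erase r).card = n := by
      rw [Finset.card_erase_of_mem hr]
      omega
    obtain ⟨c, hc0, hc1, hc2⟩ := ih (W.erase r) hcard
    have hch : ∀ u : V, ∃ p : V, u ∈ W.erase r → ¬ Safe G u → (∃ v ∈ W.erase r, G.Adj u v) →
        p ∈ W.erase r ∧ G.Adj u p ∧ ∀ w ∈ W.erase r, G.Adj u w → w ≠ p → c w ≠ c p := by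
      intro u
      by_cases h : u ∈ W.erase r ∧ ¬ Safe G u ∧ ∃ v ∈ W.erase r, G.Adj u v
      · obtain ⟨p, hp1, hp2, hp3⟩ := hc2 u h.1 h.2.1 h.2.2
        exact ⟨p, fun _ _ _ => ⟨hp1, hp2, hp3⟩⟩
      · exact ⟨u, fun h1 h2 h3 => absurd ⟨h1, h2, h3⟩ h⟩
    choose p hp using hch
    let Q : Finset V := (W.erase r).filter (fun u => G.Adj r u)
    let A : Finset V := Q.filter (fun u => ¬ Safe G u)
    let FB : Finset α := Q.image c ∪ A.image (fun u => c (p u))
    have hQclique : ∀ x ∈ Q, ∀ y ∈ Q, x ≠ y → G.Adj x y := by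
      intro x hx y hy hxy
      simp only [Q, Finset.mem_filter, Finset.mem_erase] at hx hy
      exact hrs x hx.1.2 y hy.1.2 hx.2 hy.2 hxy
    have hFB : FB.card < (L r).card := by
      have h1 : FB.card ≤ Q.card + A.card :=
        le_trans (Finset.card_union_le _ _) (Nat.add_le_add Finset.card_image_le
          Finset.card_image_le)
      have h2 : A.card ≤ Q.card := Finset.card_le_card (Finset.filter_subset _ _)
      rcases Finset.eq_empty_or_nonempty A with hA | ⟨u, hu⟩
      · have h3 : Q.card ≤ G.degree r := by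
          rw [← G.card_neighborFinset_eq_degree]
          refine Finset.card_le_card ?_
          intro w hw
          simp only [Q, Finset.mem_filter] at hw
          rw [G.mem_neighborFinset]
          exact hw.2
        have h4 := hL0 r
        rw [hA, Finset.card_empty] at h1
        omega
      · have hu' := hu
        simp only [A, Finset.mem_filter] at hu'
        have hrQ : r ∉ Q := by
          simp [Q]
        have h3 : ¬ G.degree u < 2 * ((insert r Q).card - 1) := by
          intro h
          refine hu'.2 ⟨insert r Q, Finset.mem_insert_of_mem hu'.1, ?_, h⟩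
          intro x hx y hy hxy
          rw [Finset.mem_insert] at hx hy
          rcases hx with hx | hx
          · rcases hy with hy | hy
            · exact absurd (hx.trans hy.symm) hxy
            · rw [hx]
              simp only [Q, Finset.mem_filter] at hy
              exact hy.2
          · rcases hy with hy | hy
            · rw [hy]
              simp only [Q, Finset.mem_filter] at hx
              exact hx.2.symm
            · exact hQclique x hx y hy hxy
        rw [Finset.card_insert_of_notMem hrQ] at h3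
        have hru : G.Adj r u := by
          have hq := hu'.1
          simp only [Q, Finset.mem_filter] at hq
          exact hq.2
        have h4 := hL r u hru
        omega
    have hex : ∃ k ∈ L r, k ∉ FB :=
      Finset.exists_mem_notMem_of_card_lt_card hFB
    obtain ⟨k, hkL, hk⟩ := hex
    have hkQ : ∀ u ∈ Q, c u ≠ k := by
      intro u hu h
      exact hk (Finset.mem_union_left _ (Finset.mem_image.2 ⟨u, hu, h⟩))
    have hkA : ∀ u ∈ A, c (p u) ≠ k := by
      intro u hu h
      exact hk (Finset.mem_union_right _ (Finset.mem_image.2 ⟨u, hu, h⟩))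
    have hmemQ : ∀ u ∈ W, G.Adj r u → u ∈ Q := by
      intro u hu h
      simp only [Q, Finset.mem_filter, Finset.mem_erase]
      exact ⟨⟨h.ne.symm, hu⟩, h⟩
    have hcr : Function.update c r k r = k := Function.update_self _ _ _
    have hcu : ∀ u, u ≠ r → Function.update c r k u = c u := fun u hu =>
      Function.update_of_ne hu _ _
    refine ⟨Function.update c r k, ?_, ?_, ?_⟩
    · intro v
      by_cases hvr : v = r
      · rw [hvr, hcr]
        exact hkL
      · rw [hcu v hvr]
        exact hc0 v
    · intro u hu v hv huv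
      by_cases hur : u = r
      · rw [hur] at huv ⊢
        rw [hcr, hcu v huv.ne.symm]
        exact (hkQ v (hmemQ v hv huv)).symm
      · by_cases hvr : v = r
        · rw [hvr] at huv ⊢
          rw [hcr, hcu u hur]
          exact hkQ u (hmemQ u hu huv.symm)
        · rw [hcu u hur, hcu v hvr]
          exact hc1 u (Finset.mem_erase.2 ⟨hur, hu⟩) v (Finset.mem_erase.2 ⟨hvr, hv⟩) huv
    · intro u hu hsafe hnb
      by_cases hur : u = r
      · obtain ⟨q, hqW, hq⟩ := hnb
        rw [hur] at hq ⊢
        have hqQ := hmemQ q hqW hq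
        refine ⟨q, hqW, hq, ?_⟩
        intro w hw hrw hwq
        rw [hcu w hrw.ne.symm, hcu q hq.ne.symm]
        have h1 := hQclique w (hmemQ w hw hrw) q hqQ hwq
        exact hc1 w (Finset.mem_erase.2 ⟨hrw.ne.symm, hw⟩) q
          (Finset.mem_erase.2 ⟨hq.ne.symm, hqW⟩) h1
      · have hu' : u ∈ W.erase r := Finset.mem_erase.2 ⟨hur, hu⟩
        by_cases hold : ∃ v ∈ W.erase r, G.Adj u v
        · obtain ⟨h1, h2, h3⟩ := hp u hu' hsafe hold
          rw [Finset.mem_erase] at h1
          refine ⟨p u, h1.2, h2, ?_⟩
          intro w hw huw hwp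
          rw [hcu (p u) h1.1]
          by_cases hwr : w = r
          · rw [hwr, hcr]
            rw [hwr] at huw
            refine (hkA u ?_).symm
            simp only [A, Finset.mem_filter]
            exact ⟨hmemQ u hu huw.symm, hsafe⟩
          · rw [hcu w hwr]
            exact h3 w (Finset.mem_erase.2 ⟨hwr, hw⟩) huw hwp
        · push Not at hold
          have hall : ∀ w ∈ W, G.Adj u w → w = r := by
            intro w hw huw
            by_contra hwr
            exact hold w (Finset.mem_erase.2 ⟨hwr, hw⟩) huw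
          obtain ⟨v, hv, huv⟩ := hnb
          have hvr := hall v hv huv
          rw [hvr] at hv huv
          exact ⟨r, hv, huv, fun w hw huw hwr => absurd (hall w hw huw) hwr⟩

/-- Chordal graphs have proper conflict-free colourings from lists `L v` larger than the degrees
of `v` and of its neighbours. -/
theorem chordal_pcf (hG : Ch G) {α : Type} [DecidableEq α] (L : V → Finset α)
    (hL0 : ∀ v, G.degree v < (L v).card) (hL : ∀ v u, G.Adj v u → G.degree u < (L v).card) :
    ∃ c : V → α, (∀ v, c v ∈ L v) ∧ (∀ u v : V, G.Adj u v → c u ≠ c v) ∧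
      ∀ v : V, 0 < G.degree v → ∃ k : α,
        (Finset.filter (fun w => c w = k) (G.neighborFinset v)).card = 1 := by
  obtain ⟨c, h0, h1, h2⟩ := greedy hG L hL0 hL Finset.univ.card Finset.univ rfl
  have hc : ∀ u v : V, G.Adj u v → c u ≠ c v := fun u v =>
    h1 u (Finset.mem_univ _) v (Finset.mem_univ _)
  refine ⟨c, h0, hc, ?_⟩
  intro v hv
  by_cases hs : Safe G v
  · exact safe_unique hc hs
  · have hnb : ∃ w ∈ Finset.univ, G.Adj v w := by
      rw [← G.card_neighborFinset_eq_degree, Finset.card_pos] at hv
      obtain ⟨w, hw⟩ := hv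
      exact ⟨w, Finset.mem_univ _, (G.mem_neighborFinset v w).1 hw⟩
    obtain ⟨p, _, hp2, hp3⟩ := h2 v (Finset.mem_univ _) hs hnb
    refine ⟨c p, Finset.card_eq_one.2 ⟨p, ?_⟩⟩
    ext w
    rw [Finset.mem_filter, Finset.mem_singleton, G.mem_neighborFinset]
    constructor
    · rintro ⟨hw, hwc⟩
      by_contra hwp
      exact hp3 w (Finset.mem_univ _) hw hwp hwc
    · intro hwp
      rw [hwp]
      exact ⟨hp2, rfl⟩

end Pool.Agent.H18.Chordal
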